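import Pool.Agent.Y922.KB.Stm2

/-!
Project KB (helper922), part LFIN (helper487): assembly of the upper bound.
-/

set_option autoImplicit false

namespace Pool.Agent.Y487.KB

open Complex Metric MeasureTheory Set
open Pool.Agent.Y922.KB
open scoped Real

theorem one_sub_le {c : ℝ} (hc0 : 0 ≤ c) {z : ℂ} (hz : ‖z‖ ≤ 1) :
    1 - c ≤ ‖1 - (c : ℂ) * z‖ := by
  have h1 := norm_sub_norm_le (1 : ℂ) ((c : ℂ) * z)
  rw [norm_one, norm_mul, Complex.norm_of_nonneg hc0] at h1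
  have h2 : c * ‖z‖ ≤ c * 1 := mul_le_mul_of_nonneg_left hz hc0
  linarith

/-- the identity for the square of the norm -/
theorem norm_identity (c η : ℝ) (z : ℂ) : ‖(z - c) - η * (z + c)‖ ^ 2 =
    ‖z - c‖ ^ 2 - 2 * η * (‖z‖ ^ 2 - c ^ 2) + η ^ 2 * ‖z + c‖ ^ 2 := by
  rw [← Complex.normSq_eq_norm_sq, ← Complex.normSq_eq_norm_sq, ← Complex.normSq_eq_norm_sq,
    ← Complex.normSq_eq_norm_sq, Complex.normSq_apply, Complex.normSq_apply,
    Complex.normSq_apply, Complex.normSq_apply]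
  simp only [Complex.sub_re, Complex.sub_im, Complex.add_re, Complex.add_im, Complex.mul_re,
    Complex.mul_im, Complex.ofReal_re, Complex.ofReal_im]
  ring

theorem norm_cmp {c r : ℝ} (hc0 : 0 ≤ c) (hc1 : c ≤ 1) (hcr : c < r) {z : ℂ} (hz : r < ‖z‖)
    (hz1 : ‖z‖ < 1) :
    ‖(z - c) - ((r ^ 2 - c ^ 2) / 2 : ℝ) * (z + c)‖ ≤ ‖z - c‖ := by
  have hη : 0 < (r ^ 2 - c ^ 2) / 2 := by nlinarith
  have h1 := norm_identity c ((r ^ 2 - c ^ 2) / 2) z
  have h2 : ‖z + c‖ ≤ 2 := by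
    calc ‖z + c‖ ≤ ‖z‖ + ‖(c : ℂ)‖ := norm_add_le _ _
      _ ≤ 2 := by
        rw [Complex.norm_of_nonneg hc0]
        linarith
  have h3 : ‖z + c‖ ^ 2 ≤ 4 := by nlinarith [norm_nonneg (z + c)]
  have h4 : r ^ 2 ≤ ‖z‖ ^ 2 := by nlinarith
  rw [← pow_le_pow_iff_left₀ (norm_nonneg _) (norm_nonneg _) (two_ne_zero), h1]
  obtain ⟨η, he⟩ : ∃ η : ℝ, η = (r ^ 2 - c ^ 2) / 2 := ⟨_, rfl⟩
  rw [← he] at hη ⊢
  have h5 : η ^ 2 * ‖z + c‖ ^ 2 ≤ η ^ 2 * 4 := mul_le_mul_of_nonneg_left h3 (by positivity)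
  have h6 : 2 * η * r ^ 2 ≤ 2 * η * ‖z‖ ^ 2 := mul_le_mul_of_nonneg_left h4 (by positivity)
  have h7 : r ^ 2 = c ^ 2 + 2 * η := by rw [he]; ring
  rw [h7] at h6
  nlinarith

theorem le_of_lintegral {p : ℝ} (hp0 : 0 < p) (f g : ℂ → ℂ)
    (hf : IntegrableOn (fun z => ‖f z‖ ^ p) (ball 0 1))
    (hg : IntegrableOn (fun z => ‖g z‖ ^ p) (ball 0 1))
    (hL : ∫⁻ z in ball (0 : ℂ) 1, ‖f z‖ₑ ^ p ≤ ∫⁻ z in ball (0 : ℂ) 1, ‖g z‖ₑ ^ p) :
    ∫ z in ball (0 : ℂ) 1, ‖f z‖ ^ p ≤ ∫ z in ball (0 : ℂ) 1, ‖g z‖ ^ p := by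
  have conv : ∀ φ : ℂ → ℂ, ∀ z, ‖φ z‖ₑ ^ p = ENNReal.ofReal (‖φ z‖ ^ p) := by
    intro φ z
    rw [← ENNReal.ofReal_rpow_of_nonneg (norm_nonneg _) hp0.le, ofReal_norm]
  rw [lintegral_congr (fun z => conv f z), lintegral_congr (fun z => conv g z),
    ← ofReal_integral_eq_lintegral_ofReal hf
      (Filter.Eventually.of_forall (fun z => Real.rpow_nonneg (norm_nonneg _) _)),
    ← ofReal_integral_eq_lintegral_ofReal hg
      (Filter.Eventually.of_forall (fun z => Real.rpow_nonneg (norm_nonneg _) _)),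
    ENNReal.ofReal_le_ofReal_iff
      (integral_nonneg (fun z => Real.rpow_nonneg (norm_nonneg _) _))] at hL
  exact hL

theorem t_LFIN : S_LFIN := by
  intro hI hP hG ε p hε hε2 hp hpε r hr
  by_contra hlt
  rw [not_le] at hlt
  obtain ⟨hr0, hr1, hA⟩ := hr
  have hJ := hI ε p hε hε2 hp hpε
  generalize hc : 1 - ε = c at hlt hJ
  have hc0 : 0 < c := by linarith
  have hc1 : c < 1 := by linarith
  obtain ⟨G, hGd, hGe⟩ := hG c p hc0 hc1 hp
  obtain ⟨η, hη⟩ : ∃ η : ℝ, η = (r ^ 2 - c ^ 2) / 2 := ⟨_, rfl⟩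
  have hη0 : 0 < η := by rw [hη]; nlinarith
  have hid : Differentiable ℂ (fun z : ℂ => z) := differentiable_id
  have hfd : DifferentiableOn ℂ (fun z => ((z - (c : ℂ)) - (η : ℂ) * (z + c)) * G z)
      (ball 0 1) := by
    apply DifferentiableOn.mul _ hGd
    exact ((hid.sub_const _).sub ((hid.add_const _).const_mul _)).differentiableOn
  have hgd : DifferentiableOn ℂ (fun z => (z - (c : ℂ)) * G z) (ball 0 1) := by
    apply DifferentiableOn.mul _ hGd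
    exact (hid.sub_const _).differentiableOn
  have hL := hA _ _ hfd hgd (by
    intro z hz hz1
    rw [norm_mul, norm_mul]
    apply mul_le_mul_of_nonneg_right _ (norm_nonneg _)
    rw [hη]
    exact norm_cmp hc0.le hc1.le hlt hz hz1)
  have hball : ∀ z ∈ ball (0 : ℂ) 1, ‖z‖ < 1 := fun z hz => by
    rwa [mem_ball_zero_iff] at hz
  have hp0 : 0 < p := by linarith
  have hp2 : 0 ≤ p - 2 := by linarith
  -- values of the norm of G
  have hlow : ∀ z ∈ ball (0 : ℂ) 1, 1 - c ≤ ‖1 - (c : ℂ) * z‖ := fun z hz =>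
    one_sub_le hc0.le (hball z hz).le
  have hpos : ∀ z ∈ ball (0 : ℂ) 1, 0 < ‖1 - (c : ℂ) * z‖ ^ (p - 2) := fun z hz =>
    Real.rpow_pos_of_pos (lt_of_lt_of_le (by linarith) (hlow z hz)) _
  have hκ : ∀ z ∈ ball (0 : ℂ) 1, ‖G z‖ ^ p = 1 / ‖1 - (c : ℂ) * z‖ ^ (p - 2) := fun z hz => by
    rw [eq_div_iff (hpos z hz).ne']
    exact hGe z hz
  have hB0 : 0 < (1 - c) ^ (p - 2) := Real.rpow_pos_of_pos (by linarith) _
  have hκB : ∀ z ∈ ball (0 : ℂ) 1, ‖G z‖ ^ p ≤ 1 / (1 - c) ^ (p - 2) := fun z hz => by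
    rw [hκ z hz]
    exact one_div_le_one_div_of_le hB0
      (Real.rpow_le_rpow (by linarith) (hlow z hz) hp2)
  have hWt : ∀ z ∈ ball (0 : ℂ) 1, Wt c p z = ‖z - c‖ ^ (p - 2) * ‖G z‖ ^ p := fun z hz => by
    unfold Wt
    rw [Real.div_rpow (norm_nonneg _) (norm_nonneg _), hκ z hz, mul_one_div]
  have hzc : ∀ z ∈ ball (0 : ℂ) 1, ‖z - c‖ ≤ 2 := fun z hz => by
    calc ‖z - c‖ ≤ ‖z‖ + ‖(c : ℂ)‖ := norm_sub_le _ _
      _ ≤ 2 := by
        rw [Complex.norm_of_nonneg hc0.le]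
        linarith [hball z hz]
  have hzc' : ∀ z ∈ ball (0 : ℂ) 1, ‖z + c‖ ≤ 2 := fun z hz => by
    calc ‖z + c‖ ≤ ‖z‖ + ‖(c : ℂ)‖ := norm_add_le _ _
      _ ≤ 2 := by
        rw [Complex.norm_of_nonneg hc0.le]
        linarith [hball z hz]
  have hmeas : MeasurableSet (ball (0 : ℂ) 1) := measurableSet_ball
  -- integrability
  have intg : ∀ (φ : ℂ → ℝ) (M : ℝ), ContinuousOn φ (ball 0 1) →
      (∀ z ∈ ball (0 : ℂ) 1, |φ z| ≤ M) → IntegrableOn φ (ball 0 1) := by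
    intro φ M hφ hM
    have : IsFiniteMeasure (volume.restrict (ball (0 : ℂ) 1)) :=
      ⟨by rw [Measure.restrict_apply_univ]; exact measure_ball_lt_top⟩
    refine Integrable.of_bound (hφ.aestronglyMeasurable hmeas) M ?_
    rw [ae_restrict_iff' hmeas]
    exact Filter.Eventually.of_forall (fun z hz => hM z hz)
  have hf1 : IntegrableOn (fun z => ‖((z - (c : ℂ)) - (η : ℂ) * (z + c)) * G z‖ ^ p)
      (ball 0 1) := by
    refine intg _ ((2 + η * 2) ^ p * (1 / (1 - c) ^ (p - 2)))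
      (hfd.continuousOn.norm.rpow_const (fun z _ => Or.inr hp0.le)) ?_
    intro z hz
    rw [abs_of_nonneg (Real.rpow_nonneg (norm_nonneg _) _), norm_mul,
      Real.mul_rpow (norm_nonneg _) (norm_nonneg _)]
    apply mul_le_mul _ (hκB z hz) (Real.rpow_nonneg (norm_nonneg _) _) (by positivity)
    apply Real.rpow_le_rpow (norm_nonneg _) _ hp0.le
    calc ‖(z - (c : ℂ)) - (η : ℂ) * (z + c)‖ ≤ ‖z - (c : ℂ)‖ + ‖(η : ℂ) * (z + c)‖ :=
          norm_sub_le _ _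
      _ ≤ 2 + η * 2 := by
        rw [norm_mul, Complex.norm_of_nonneg hη0.le]
        exact add_le_add (hzc z hz) (mul_le_mul_of_nonneg_left (hzc' z hz) hη0.le)
  have hg1 : IntegrableOn (fun z => ‖(z - (c : ℂ)) * G z‖ ^ p) (ball 0 1) := by
    refine intg _ (2 ^ p * (1 / (1 - c) ^ (p - 2)))
      (hgd.continuousOn.norm.rpow_const (fun z _ => Or.inr hp0.le)) ?_
    intro z hz
    rw [abs_of_nonneg (Real.rpow_nonneg (norm_nonneg _) _), norm_mul,
      Real.mul_rpow (norm_nonneg _) (norm_nonneg _)]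
    apply mul_le_mul _ (hκB z hz) (Real.rpow_nonneg (norm_nonneg _) _) (by positivity)
    exact Real.rpow_le_rpow (norm_nonneg _) (hzc z hz) hp0.le
  have hw1 : IntegrableOn (fun z => Wt c p z * (‖z‖ ^ 2 - c ^ 2)) (ball 0 1) := by
    refine intg _ (2 ^ (p - 2) * (1 / (1 - c) ^ (p - 2)) * 1) ?_ ?_
    · apply ContinuousOn.mul
      · unfold Wt
        apply ContinuousOn.rpow_const _ (fun z _ => Or.inr hp2)
        apply ContinuousOn.div
        · exact (continuous_id.sub continuous_const).norm.continuousOn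
        · exact (continuous_const.sub (continuous_const.mul continuous_id)).norm.continuousOn
        · intro z hz
          exact (lt_of_lt_of_le (by linarith) (hlow z hz)).ne'
      · exact ((continuous_norm.pow 2).sub continuous_const).continuousOn
    · intro z hz
      rw [abs_mul, hWt z hz, abs_of_nonneg (mul_nonneg (Real.rpow_nonneg (norm_nonneg _) _)
        (Real.rpow_nonneg (norm_nonneg _) _))]
      apply mul_le_mul _ _ (abs_nonneg _) (by positivity)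
      · exact mul_le_mul (Real.rpow_le_rpow (norm_nonneg _) (hzc z hz) hp2) (hκB z hz)
          (Real.rpow_nonneg (norm_nonneg _) _) (by positivity)
      · have h1 := hball z hz
        have h2 := norm_nonneg z
        rw [abs_le]
        constructor <;> nlinarith
  -- comparison of the integrals
  have hle : ∫ z in ball (0 : ℂ) 1, ‖((z - (c : ℂ)) - (η : ℂ) * (z + c)) * G z‖ ^ p ≤
      ∫ z in ball (0 : ℂ) 1, ‖(z - (c : ℂ)) * G z‖ ^ p := le_of_lintegral hp0 _ _ hf1 hg1 hL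
  have hge : ∫ z in ball (0 : ℂ) 1, (‖(z - (c : ℂ)) * G z‖ ^ p -
      η * p * (Wt c p z * (‖z‖ ^ 2 - c ^ 2))) ≤
      ∫ z in ball (0 : ℂ) 1, ‖((z - (c : ℂ)) - (η : ℂ) * (z + c)) * G z‖ ^ p := by
    refine setIntegral_mono_on (hg1.sub (hw1.const_mul _)) hf1 hmeas ?_
    intro z hz
    have h1 := mul_le_mul_of_nonneg_right (hP c η p z hc0.le hη0.le hp)
      (Real.rpow_nonneg (norm_nonneg (G z)) p)
    rw [norm_mul, norm_mul, Real.mul_rpow (norm_nonneg _) (norm_nonneg _),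
      Real.mul_rpow (norm_nonneg _) (norm_nonneg _), hWt z hz]
    refine le_trans (le_of_eq ?_) h1
    ring
  rw [integral_sub hg1 (hw1.const_mul _), integral_const_mul] at hge
  have h3 : η * p * ∫ z in ball (0 : ℂ) 1, Wt c p z * (‖z‖ ^ 2 - c ^ 2) < 0 :=
    mul_neg_of_pos_of_neg (by positivity) hJ
  linarith

end Pool.Agent.Y487.KB
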